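import Pool.Agent.H33.AA.AppBB
import Pool.Agent.H33.AA.Dens

set_option autoImplicit false

namespace Pool.Agent.Results.MP_bb7ea4_nt.Q1AlmostAll

open Classical in
/-- The set of natural numbers `n` for which `8n+1 = x²+y²+z²` with integers `x, y`, a positive
integer `z` and `x + 3y` a square has natural density 1. -/
theorem result :
    Filter.Tendsto (fun N : ℕ => (((Finset.range N).filter (fun n : ℕ =>
      ∃ x y z : ℤ, 0 < z ∧ 8 * (n : ℤ) + 1 = x ^ 2 + y ^ 2 + z ^ 2 ∧
        ∃ k : ℤ, x + 3 * y = k ^ 2)).card : ℝ) / (N : ℝ)) Filter.atTop (nhds 1) := by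
  exact Pool.Agent.H33.AA.dens_of_bad _ Pool.Agent.H33.AA.q1

end Pool.Agent.Results.MP_bb7ea4_nt.Q1AlmostAll
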