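import Pool.Agent.H33.AA.AppBB
import Pool.Agent.H33.AA.Dens

set_option autoImplicit false

namespace Pool.Agent.Results.MP_bb7ea4_nt.Q2AlmostAll

open Classical in
/-- The set of natural numbers `n` for which `8n+6 = x²+y²+z²` with an integer `x`, natural
numbers `y, z`, `z` odd and `x + 2y` a square has natural density 1. -/
theorem result :
    Filter.Tendsto (fun N : ℕ => (((Finset.range N).filter (fun n : ℕ =>
      ∃ x : ℤ, ∃ y z : ℕ, z % 2 = 1 ∧ 8 * (n : ℤ) + 6 = x ^ 2 + (y : ℤ) ^ 2 + (z : ℤ) ^ 2 ∧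
        ∃ k : ℤ, x + 2 * (y : ℤ) = k ^ 2)).card : ℝ) / (N : ℝ)) Filter.atTop (nhds 1) := by
  exact Pool.Agent.H33.AA.dens_of_bad _ Pool.Agent.H33.AA.q2

end Pool.Agent.Results.MP_bb7ea4_nt.Q2AlmostAll
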